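import Pool.Agent.H26.NO.Targets

/-!
# Row DN of nok_modules: two tuples with different product or sum (helper79)
-/

set_option autoImplicit false

open Finset
open Pool.Agent.H26.NO

namespace Pool.Agent.H79.NO

/-- The number of `b` in `(Y, 2 Y]` with `d ∣ b Q - 1`. -/
lemma count_le (Y Q d : ℕ) (hY : 1 ≤ Y) (_hd : 1 ≤ d) (hdY : d ≤ Y) (hQ : 1 ≤ Q) :
    ((Ioc Y (2 * Y)).filter (fun b => d ∣ b * Q - 1)).card * d ≤ 2 * Y := by
  have hcong : ∀ b ∈ (Ioc Y (2 * Y)).filter (fun b => d ∣ b * Q - 1), b * Q ≡ 1 [MOD d] := by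
    intro b hb
    rw [mem_filter, mem_Ioc] at hb
    have h1 : 1 ≤ b * Q := Nat.mul_pos (by omega) (by omega)
    exact ((Nat.modEq_iff_dvd' h1).2 hb.2).symm
  have h1 : ((Ioc Y (2 * Y)).filter (fun b => d ∣ b * Q - 1)).card ≤
      (range ((Y - 1) / d + 1)).card := by
    refine card_le_card_of_injOn (fun b => (b - (Y + 1)) / d) ?_ ?_
    · intro b hb
      have hb' := (mem_filter.1 (by exact_mod_cast hb)).1
      rw [mem_Ioc] at hb'
      have : (b - (Y + 1)) / d ≤ (Y - 1) / d := Nat.div_le_div_right (by omega)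
      simp only [coe_range, Set.mem_Iio]
      omega
    · intro b hb c hc he
      have hb0 : b ∈ (Ioc Y (2 * Y)).filter (fun b => d ∣ b * Q - 1) := by exact_mod_cast hb
      have hc0 : c ∈ (Ioc Y (2 * Y)).filter (fun b => d ∣ b * Q - 1) := by exact_mod_cast hc
      have h1 := hcong b hb0
      have h2 := hcong c hc0
      have hbY := (mem_Ioc.1 (mem_filter.1 hb0).1)
      have hcY := (mem_Ioc.1 (mem_filter.1 hc0).1)
      have h3 : b ≡ c [MOD d] := by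
        calc b = b * 1 := (mul_one b).symm
          _ ≡ b * (c * Q) [MOD d] := (h2.symm).mul_left b
          _ = c * (b * Q) := by ring
          _ ≡ c * 1 [MOD d] := h1.mul_left c
          _ = c := mul_one c
      have h4 : b - (Y + 1) ≡ c - (Y + 1) [MOD d] := by
        refine Nat.ModEq.add_right_cancel' (Y + 1) ?_
        rw [Nat.sub_add_cancel (by omega), Nat.sub_add_cancel (by omega)]
        exact h3
      simp only at he
      have h5 := Nat.div_add_mod (b - (Y + 1)) d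
      have h6 := Nat.div_add_mod (c - (Y + 1)) d
      unfold Nat.ModEq at h4
      rw [he, h4] at h5
      omega
  rw [card_range] at h1
  calc ((Ioc Y (2 * Y)).filter (fun b => d ∣ b * Q - 1)).card * d ≤ ((Y - 1) / d + 1) * d :=
        Nat.mul_le_mul_right d h1
    _ = (Y - 1) / d * d + d := by ring
    _ ≤ (Y - 1) + d := Nat.add_le_add_right (Nat.div_mul_le_self _ _) d
    _ ≤ 2 * Y := by omega

theorem pf_DN (hRS : T_RS) : T_DN := by
  classical
  intro Y Q Q' S S' z hY hQ hQ' hz hz0 hE0 hEY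
  set E : ℤ := (Q' : ℤ) - Q + ((S : ℤ) - S') * (Q * Q') with hE
  set n : ℕ := E.natAbs with hn
  have hn1 : 1 ≤ n := Int.natAbs_pos.2 hE0
  have hnY : n ≤ Y := by
    have : (n : ℤ) = |E| := Int.natCast_natAbs E
    have h2 : (n : ℤ) ≤ Y := by
      rw [this]
      exact hEY
    exact_mod_cast h2
  have hYR : (1 : ℝ) ≤ Y := by exact_mod_cast hY
  have hQR : (1 : ℝ) ≤ Q := by exact_mod_cast hQ
  have hQR' : (1 : ℝ) ≤ Q' := by exact_mod_cast hQ'
  have hlog : Real.log n ≤ Real.log Y :=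
    Real.log_le_log (by exact_mod_cast hn1) (by exact_mod_cast hnY)
  have hrs := hRS n z hn1 (by linarith)
  set Dv : Finset ℕ := n.divisors.filter
    (fun d => 1 < d ∧ ∀ p : ℕ, p.Prime → p ∣ d → z < (p : ℝ)) with hDv
  have hDvm : ∀ d ∈ Dv, d ∣ n ∧ 1 < d ∧ d ≤ Y := by
    intro d hd
    rw [hDv, mem_filter, Nat.mem_divisors] at hd
    exact ⟨hd.1.1, hd.2.1, (Nat.le_of_dvd hn1 hd.1.1).trans hnY⟩
  -- the gcd belongs to `Dv`
  have hG : ∀ b ∈ Bs Y z Q, ∀ b' ∈ Bs Y z Q', 1 < (b * Q - 1).gcd (b' * Q' - 1) →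
      (((b * Q - 1).gcd (b' * Q' - 1) : ℕ) : ℤ) ∣ ((b : ℤ) + S) - ((b' : ℤ) + S') →
      (b * Q - 1).gcd (b' * Q' - 1) ∈ Dv := by
    intro b hb b' hb' h1 h2
    unfold Bs at hb hb'
    rw [mem_filter, mem_Ioc] at hb hb'
    set G := (b * Q - 1).gcd (b' * Q' - 1) with hGdef
    have hbQ : 1 ≤ b * Q := Nat.mul_pos (by omega) (by omega)
    have hbQ' : 1 ≤ b' * Q' := Nat.mul_pos (by omega) (by omega)
    have g1 : (G : ℤ) ∣ (b : ℤ) * Q - 1 := by
      have : ((b * Q - 1 : ℕ) : ℤ) = (b : ℤ) * Q - 1 := by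
        rw [Nat.cast_sub hbQ]
        push_cast
        ring
      rw [← this]
      exact Int.natCast_dvd_natCast.2 (Nat.gcd_dvd_left _ _)
    have g2 : (G : ℤ) ∣ (b' : ℤ) * Q' - 1 := by
      have : ((b' * Q' - 1 : ℕ) : ℤ) = (b' : ℤ) * Q' - 1 := by
        rw [Nat.cast_sub hbQ']
        push_cast
        ring
      rw [← this]
      exact Int.natCast_dvd_natCast.2 (Nat.gcd_dvd_right _ _)
    have g3 : (G : ℤ) ∣ E := by
      have e1 : E = (Q : ℤ) * Q' * (((b : ℤ) + S) - ((b' : ℤ) + S')) -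
          Q' * ((b : ℤ) * Q - 1) + Q * ((b' : ℤ) * Q' - 1) := by
        rw [hE]
        ring
      rw [e1]
      exact dvd_add (dvd_sub (Dvd.dvd.mul_left h2 _) (Dvd.dvd.mul_left g1 _))
        (Dvd.dvd.mul_left g2 _)
    rw [hDv, mem_filter, Nat.mem_divisors]
    refine ⟨⟨?_, by omega⟩, h1, ?_⟩
    · exact Int.natCast_dvd.1 g3
    · intro p hp hpG
      by_contra hcon
      push Not at hcon
      exact hb.2 p hp hcon (hpG.trans (Nat.gcd_dvd_left _ _))
  -- the bound of a term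
  set I : ℕ → ℕ → ℕ → ℝ := fun d q b => if d ∣ b * q - 1 then 1 else 0 with hI
  have hI0 : ∀ d q b, 0 ≤ I d q b := by
    intro d q b
    simp only [hI]
    split_ifs <;> norm_num
  set c : ℝ := 1 / (((Y : ℝ) * Q) * (Y * Q')) with hc
  have hc0 : 0 ≤ c := by positivity
  have hterm : ∀ b ∈ Bs Y z Q, ∀ b' ∈ (Bs Y z Q').filter (fun b' =>
      1 < (b * Q - 1).gcd (b' * Q' - 1) ∧
      (((b * Q - 1).gcd (b' * Q' - 1) : ℕ) : ℤ) ∣ ((b : ℤ) + S) - ((b' : ℤ) + S')),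
      (((b * Q - 1).gcd (b' * Q' - 1) : ℕ) : ℝ) /
          (((b * Q - 1 : ℕ) : ℝ) * ((b' * Q' - 1 : ℕ) : ℝ)) ≤
      ∑ d ∈ Dv, (d : ℝ) * c * (I d Q b * I d Q' b') := by
    intro b hb b' hb'
    rw [mem_filter] at hb'
    obtain ⟨hb1, h1, h2⟩ := hb'
    have hmem := hG b hb b' hb1 h1 h2
    set G := (b * Q - 1).gcd (b' * Q' - 1) with hGdef
    unfold Bs at hb hb1
    rw [mem_filter, mem_Ioc] at hb hb1
    have q1 : (Y : ℝ) * Q ≤ ((b * Q - 1 : ℕ) : ℝ) := by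
      have : Y * Q ≤ b * Q - 1 := by
        have h3 : (Y + 1) * Q ≤ b * Q := Nat.mul_le_mul_right Q (by omega)
        have h4 : (Y + 1) * Q = Y * Q + Q := by ring
        omega
      exact_mod_cast this
    have q2 : (Y : ℝ) * Q' ≤ ((b' * Q' - 1 : ℕ) : ℝ) := by
      have : Y * Q' ≤ b' * Q' - 1 := by
        have h3 : (Y + 1) * Q' ≤ b' * Q' := Nat.mul_le_mul_right Q' (by omega)
        have h4 : (Y + 1) * Q' = Y * Q' + Q' := by ring
        omega
      exact_mod_cast this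
    have hpos1 : (0 : ℝ) < (Y : ℝ) * Q := by positivity
    have hpos2 : (0 : ℝ) < (Y : ℝ) * Q' := by positivity
    have hI1 : I G Q b = 1 := by
      simp only [hI]
      rw [if_pos (Nat.gcd_dvd_left _ _)]
    have hI2 : I G Q' b' = 1 := by
      simp only [hI]
      rw [if_pos (Nat.gcd_dvd_right _ _)]
    calc (G : ℝ) / (((b * Q - 1 : ℕ) : ℝ) * ((b' * Q' - 1 : ℕ) : ℝ))
        ≤ (G : ℝ) / (((Y : ℝ) * Q) * (Y * Q')) := by
          refine div_le_div_of_nonneg_left (Nat.cast_nonneg _) (mul_pos hpos1 hpos2) ?_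
          exact mul_le_mul q1 q2 hpos2.le (hpos1.le.trans q1)
      _ = (G : ℝ) * c * (I G Q b * I G Q' b') := by
          rw [hI1, hI2, hc]
          ring
      _ ≤ ∑ d ∈ Dv, (d : ℝ) * c * (I d Q b * I d Q' b') :=
          single_le_sum (f := fun d : ℕ => (d : ℝ) * c * (I d Q b * I d Q' b'))
            (fun d _ => mul_nonneg (mul_nonneg (Nat.cast_nonneg _) hc0)
              (mul_nonneg (hI0 _ _ _) (hI0 _ _ _))) hmem
  have hT0 : ∀ b b' : ℕ, 0 ≤ ∑ d ∈ Dv, (d : ℝ) * c * (I d Q b * I d Q' b') := fun b b' =>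
    sum_nonneg fun d _ => mul_nonneg (mul_nonneg (Nat.cast_nonneg _) hc0)
      (mul_nonneg (hI0 _ _ _) (hI0 _ _ _))
  have hstep : ∑ b ∈ Bs Y z Q, ∑ b' ∈ (Bs Y z Q').filter (fun b' =>
      1 < (b * Q - 1).gcd (b' * Q' - 1) ∧
      (((b * Q - 1).gcd (b' * Q' - 1) : ℕ) : ℤ) ∣ ((b : ℤ) + S) - ((b' : ℤ) + S')),
        (((b * Q - 1).gcd (b' * Q' - 1) : ℕ) : ℝ) /
          (((b * Q - 1 : ℕ) : ℝ) * ((b' * Q' - 1 : ℕ) : ℝ)) ≤
      ∑ b ∈ Ioc Y (2 * Y), ∑ b' ∈ Ioc Y (2 * Y),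
        ∑ d ∈ Dv, (d : ℝ) * c * (I d Q b * I d Q' b') := by
    refine (sum_le_sum fun b hb => sum_le_sum fun b' hb' => hterm b hb b' hb').trans ?_
    refine (sum_le_sum fun b _ => sum_le_sum_of_subset_of_nonneg (t := Ioc Y (2 * Y)) ?_
      fun b' _ _ => hT0 b b').trans ?_
    · intro b' hb'
      rw [mem_filter] at hb'
      have := hb'.1
      unfold Bs at this
      exact (mem_filter.1 this).1
    · refine sum_le_sum_of_subset_of_nonneg ?_ fun b _ _ => sum_nonneg fun b' _ => hT0 b b'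
      intro b hb
      unfold Bs at hb
      exact (mem_filter.1 hb).1
  refine hstep.trans ?_
  have hswap : ∑ b ∈ Ioc Y (2 * Y), ∑ b' ∈ Ioc Y (2 * Y),
        ∑ d ∈ Dv, (d : ℝ) * c * (I d Q b * I d Q' b') =
      ∑ d ∈ Dv, (d : ℝ) * c * ((∑ b ∈ Ioc Y (2 * Y), I d Q b) *
        ∑ b' ∈ Ioc Y (2 * Y), I d Q' b') := by
    calc ∑ b ∈ Ioc Y (2 * Y), ∑ b' ∈ Ioc Y (2 * Y),
        ∑ d ∈ Dv, (d : ℝ) * c * (I d Q b * I d Q' b')
        = ∑ b ∈ Ioc Y (2 * Y), ∑ d ∈ Dv, ∑ b' ∈ Ioc Y (2 * Y),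
            (d : ℝ) * c * (I d Q b * I d Q' b') := sum_congr rfl fun b _ => sum_comm
      _ = ∑ d ∈ Dv, ∑ b ∈ Ioc Y (2 * Y), ∑ b' ∈ Ioc Y (2 * Y),
            (d : ℝ) * c * (I d Q b * I d Q' b') := sum_comm
      _ = _ := by
          refine sum_congr rfl fun d _ => ?_
          rw [sum_mul_sum, mul_sum]
          refine sum_congr rfl fun b _ => ?_
          rw [mul_sum]
  rw [hswap]
  have hcnt : ∀ (d q : ℕ), ∑ b ∈ Ioc Y (2 * Y), I d q b =
      (((Ioc Y (2 * Y)).filter (fun b => d ∣ b * q - 1)).card : ℝ) := by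
    intro d q
    simp only [hI]
    rw [sum_boole]
  have hfin : ∀ d ∈ Dv, (d : ℝ) * c * ((∑ b ∈ Ioc Y (2 * Y), I d Q b) *
        ∑ b' ∈ Ioc Y (2 * Y), I d Q' b') ≤ 4 / ((Q : ℝ) * Q') * (1 / (d : ℝ)) := by
    intro d hd
    obtain ⟨-, h1, h2⟩ := hDvm d hd
    rw [hcnt d Q, hcnt d Q']
    have c1 : (((Ioc Y (2 * Y)).filter (fun b => d ∣ b * Q - 1)).card : ℝ) * d ≤ 2 * Y := by
      exact_mod_cast count_le Y Q d hY h1.le h2 hQ
    have c2 : (((Ioc Y (2 * Y)).filter (fun b => d ∣ b * Q' - 1)).card : ℝ) * d ≤ 2 * Y := by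
      exact_mod_cast count_le Y Q' d hY h1.le h2 hQ'
    set N1 : ℝ := (((Ioc Y (2 * Y)).filter (fun b => d ∣ b * Q - 1)).card : ℝ) with hN1
    set N2 : ℝ := (((Ioc Y (2 * Y)).filter (fun b => d ∣ b * Q' - 1)).card : ℝ) with hN2
    have hN10 : 0 ≤ N1 := Nat.cast_nonneg _
    have hN20 : 0 ≤ N2 := Nat.cast_nonneg _
    have hd0 : (0 : ℝ) < d := by
      have : (1 : ℝ) < d := by exact_mod_cast h1
      linarith
    have h3 : (N1 * d) * (N2 * d) ≤ (2 * Y) * (2 * Y) :=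
      mul_le_mul c1 c2 (mul_nonneg hN20 hd0.le) (by positivity)
    have h4 : (d : ℝ) * c * (N1 * N2) = ((N1 * d) * (N2 * d)) * (c / d) := by
      field_simp
    rw [h4]
    calc ((N1 * d) * (N2 * d)) * (c / d) ≤ ((2 * Y) * (2 * Y)) * (c / d) :=
          mul_le_mul_of_nonneg_right h3 (div_nonneg hc0 hd0.le)
      _ = 4 / ((Q : ℝ) * Q') * (1 / (d : ℝ)) := by
          rw [hc]
          field_simp
          try ring
  calc ∑ d ∈ Dv, (d : ℝ) * c * ((∑ b ∈ Ioc Y (2 * Y), I d Q b) *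
        ∑ b' ∈ Ioc Y (2 * Y), I d Q' b')
      ≤ ∑ d ∈ Dv, 4 / ((Q : ℝ) * Q') * (1 / (d : ℝ)) := sum_le_sum hfin
    _ = 4 / ((Q : ℝ) * Q') * ∑ d ∈ Dv, (1 / (d : ℝ)) := by rw [mul_sum]
    _ ≤ 4 / ((Q : ℝ) * Q') * (3 * Real.log n / z) := by
        refine mul_le_mul_of_nonneg_left ?_ (by positivity)
        convert hrs using 2
    _ ≤ 4 / ((Q : ℝ) * Q') * (3 * Real.log Y / z) := by
        refine mul_le_mul_of_nonneg_left ?_ (by positivity)
        refine div_le_div_of_nonneg_right ?_ hz0.le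
        linarith
    _ = 12 * Real.log Y / (z * (Q * Q')) := by
        field_simp
        try ring

end Pool.Agent.H79.NO
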